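import Pool.Agent.R824.TT.Der

/-!
Closure properties of the set of acceptable formulas.
-/

set_option autoImplicit false
set_option linter.unusedTactic false
set_option linter.unreachableTactic false

namespace Pool.Agent.R824.TT

open Der

section members

variable {α : Type} {a x0 x1 x2 x3 x4 x5 x6 x7 : α} {l : List α}

theorem m0 : a ∈ a :: l := by simp
theorem m1 : a ∈ x0 :: a :: l := by simp
theorem m2 : a ∈ x0 :: x1 :: a :: l := by simp
theorem m3 : a ∈ x0 :: x1 :: x2 :: a :: l := by simp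
theorem m4 : a ∈ x0 :: x1 :: x2 :: x3 :: a :: l := by simp
theorem m5 : a ∈ x0 :: x1 :: x2 :: x3 :: x4 :: a :: l := by simp
theorem m6 : a ∈ x0 :: x1 :: x2 :: x3 :: x4 :: x5 :: a :: l := by simp
theorem m7 : a ∈ x0 :: x1 :: x2 :: x3 :: x4 :: x5 :: x6 :: a :: l := by simp
theorem m8 : a ∈ x0 :: x1 :: x2 :: x3 :: x4 :: x5 :: x6 :: x7 :: a :: l := by simp

end members

/-- Provable entailment. -/
def Le (φ ψ : Fml) : Prop := Fml.imp φ ψ ∈ Acceptable

/-- Fusion. -/
def fus (φ ψ : Fml) : Fml := .neg (.imp φ (.neg ψ))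

variable {φ ψ χ φ' ψ' θ θ' a b c x y z : Fml}

theorem Le.refl (φ : Fml) : Le φ φ :=
  acceptable_of_der <| counter m0 <| crash m0 m1 (by intro m; simp <;> tauto)

theorem Le.trans (h1 : Le φ ψ) (h2 : Le ψ χ) : Le φ χ :=
  acceptable_of_der <| counter m0 <| recursive m0 h1 <| recursive m0 h2 <|
    crash m0 m3 (by intro m; simp <;> tauto)

theorem le_conj (h1 : Le χ φ) (h2 : Le χ ψ) : Le χ (.conj φ ψ) :=
  acceptable_of_der <| counter m0 <| negConj m1
    (recursive m1 h1 <| crash m0 m1 (by intro m; simp <;> tauto))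
    (recursive m1 h2 <| crash m0 m1 (by intro m; simp <;> tauto))

theorem conj_le_left : Le (.conj φ ψ) φ :=
  acceptable_of_der <| counter m0 <| conj m0 <| crash m0 m3 (by intro m; simp <;> tauto)

theorem conj_le_right : Le (.conj φ ψ) ψ :=
  acceptable_of_der <| counter m0 <| conj m0 <| crash m1 m3 (by intro m; simp <;> tauto)

theorem le_disj_left : Le φ (.disj φ ψ) :=
  acceptable_of_der <| counter m0 <| negDisj m1 <| crash m2 m0 (by intro m; simp <;> tauto)

theorem le_disj_right : Le ψ (.disj φ ψ) :=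
  acceptable_of_der <| counter m0 <| negDisj m1 <| crash m2 m1 (by intro m; simp <;> tauto)

theorem disj_le (h1 : Le φ χ) (h2 : Le ψ χ) : Le (.disj φ ψ) χ :=
  acceptable_of_der <| counter m0 <| disj m0
    (recursive m0 h1 <| crash m0 m3 (by intro m; simp <;> tauto))
    (recursive m0 h2 <| crash m0 m3 (by intro m; simp <;> tauto))

theorem contra (h : Le φ ψ) : Le (.neg ψ) (.neg φ) :=
  acceptable_of_der <| counter m0 <| negNeg m1 <| recursive m0 h <|
    crash m0 m2 (by intro m; simp <;> tauto)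

theorem dneg_le : Le (.neg (.neg φ)) φ :=
  acceptable_of_der <| counter m0 <| negNeg m0 <| crash m0 m2 (by intro m; simp <;> tauto)

theorem le_dneg : Le φ (.neg (.neg φ)) :=
  acceptable_of_der <| counter m0 <| negNeg m1 <| crash m1 m0 (by intro m; simp <;> tauto)

theorem imp_mono (h1 : Le φ' φ) (h2 : Le ψ ψ') : Le (.imp φ ψ) (.imp φ' ψ') :=
  acceptable_of_der <| counter m0 <| counter m1 <| recursive m0 h1 <| mp m0 m3 <|
    recursive m0 h2 <| crash m0 m4 (by intro m; simp <;> tauto)

theorem contraLaw : Le (.imp φ ψ) (.imp (.neg ψ) (.neg φ)) :=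
  acceptable_of_der <| counter m0 <| counter m1 <| negNeg m1 <| mp m0 m3 <|
    crash m0 m2 (by intro m; simp <;> tauto)

theorem le_imp_imp : Le (.imp ψ χ) (.imp (.imp φ ψ) (.imp φ χ)) :=
  acceptable_of_der <| counter m0 <| counter m1 <| counter m1 <| mp m0 m2 <| mp m0 m5 <|
    crash m0 m3 (by intro m; simp <;> tauto)

theorem fus_le (h : Le φ (.imp ψ χ)) : Le (fus φ ψ) χ :=
  acceptable_of_der <| counter m0 <| counter m0 <| negNeg m1 <| recursive m1 h <| mp m1 m0 <|
    crash m0 m6 (by intro m; simp <;> tauto)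

theorem le_imp (h : Le (fus φ ψ) χ) : Le φ (.imp ψ χ) :=
  acceptable_of_der <| counter m0 <| counter m1 <| recursive m1 (contra h) <| negNeg m0 <|
    mp m4 m0 <| crash m3 m0 (by intro m; simp <;> tauto)

theorem fus_comm : Le (fus φ ψ) (fus ψ φ) :=
  contra <| acceptable_of_der <| counter m0 <| counter m1 <| negNeg m1 <| mp m0 m3 <|
    crash m2 m0 (by intro m; simp <;> tauto)

theorem fus_assoc : Le (fus (fus a b) c) (fus a (fus b c)) :=
  acceptable_of_der <| counter m0 <| negNeg m1 <| counter m1 <| counter m0 <| negNeg m1 <|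
    negNeg m4 <| mp m2 m6 <| negNeg m0 <| mp m3 m0 <| crash m3 m0 (by intro m; simp <;> tauto)

theorem le_fus_self : Le φ (fus φ φ) :=
  acceptable_of_der <| counter m0 <| negNeg m1 <| mp m1 m0 <|
    crash m2 m0 (by intro m; simp <;> tauto)

theorem assertion : Le φ (.imp (.imp φ ψ) ψ) :=
  acceptable_of_der <| counter m0 <| counter m1 <| mp m2 m0 <|
    crash m0 m2 (by intro m; simp <;> tauto)

theorem antilog (h : Le (fus x y) z) : Le (fus x (.neg z)) (.neg y) :=
  acceptable_of_der <| counter m0 <| counter m0 <| negNeg m1 <| recursive m0 (contra h) <|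
    negNeg m0 <| mp m3 m0 <| negNeg m7 <| crash m0 m1 (by intro m; simp <;> tauto)

theorem excluded_middle : Fml.disj φ (.neg φ) ∈ Acceptable :=
  acceptable_of_der <| negDisj m0 <| negNeg m1 <| crash m0 m1 (by intro m; simp <;> tauto)

theorem disj_imp_disj :
    Le (.conj (.imp θ θ) (.imp θ' θ')) (.imp (.disj θ θ') (.disj θ θ')) :=
  acceptable_of_der <| counter m0 <| conj m0 <| counter m3 <| negDisj m1 <| disj m2
    (mp m0 m5 <| crash m0 m2 (by intro m; simp <;> tauto))
    (mp m0 m6 <| crash m0 m3 (by intro m; simp <;> tauto))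

theorem deMorgan : Le (.conj (.neg φ) (.neg ψ)) (.neg (.disj ψ φ)) :=
  acceptable_of_der <| counter m0 <| conj m0 <| negNeg m3 <| disj m0
    (crash m0 m3 (by intro m; simp <;> tauto))
    (crash m0 m2 (by intro m; simp <;> tauto))

theorem der_of_acceptable (h : φ ∈ Acceptable) : Der Acceptable [(.neg φ, ∅)] 0 :=
  acceptable_induction (P := fun φ => Der Acceptable [(.neg φ, ∅)] 0)
    (fun _ hφ => hφ.mono (fun _ h => h.1) (List.Subset.refl _)) h

theorem detach (h : φ ∈ Acceptable) (h' : Le φ ψ) : ψ ∈ Acceptable :=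
  acceptable_of_der <| recursive m0 (contra h') <|
    (der_of_acceptable h).mono (fun _ h => h) (by simp)

end Pool.Agent.R824.TT
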