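import Mathlib

/-!
Truth-trees with parity and the set of acceptable formulas.
-/

set_option autoImplicit false

namespace Pool.Agent.R824.TT

/-- Formulas, built from sentence letters (indexed by `ℕ`) with `¬`, `∧`, `∨`, `→`. -/
inductive Fml : Type
  | var (p : ℕ) : Fml
  | neg (φ : Fml) : Fml
  | conj (φ ψ : Fml) : Fml
  | disj (φ ψ : Fml) : Fml
  | imp (φ ψ : Fml) : Fml

/-- The sentence letters which occur in a formula. -/
def Fml.letters : Fml → Set ℕ
  | .var p => {p}
  | .neg φ => φ.letters
  | .conj φ ψ => φ.letters ∪ ψ.letters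
  | .disj φ ψ => φ.letters ∪ ψ.letters
  | .imp φ ψ => φ.letters ∪ ψ.letters

/-- A node of a truth-tree, as it is recorded on a branch: its formula, the positions on the branch
of the nodes it was obtained from, and, if the node is critical, the position of its partner. -/
structure Node where
  /-- the formula at the node -/
  fml : Fml
  /-- the positions of the inputs of the node -/
  inputs : List ℕ
  /-- the position of the partner, for critical nodes; `none` for all other nodes -/
  partner : Option ℕ

/-- The node at position `i` of the branch `b` carries the formula `φ`. (The branch is listed from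
the root on, so position `0` is the root.) -/
def Has (b : List Node) (i : ℕ) (φ : Fml) : Prop := ∃ n, b[i]? = some n ∧ n.fml = φ

/-- `InTrace b i k`: the node at position `k` is in the trace of the node at position `i`. The trace
is the least set which contains `i` and with each node the inputs of that node. -/
inductive InTrace (b : List Node) (i : ℕ) : ℕ → Prop
  | self : InTrace b i i
  | input {j k : ℕ} {n : Node} (hj : InTrace b i j) (hn : b[j]? = some n) (hk : k ∈ n.inputs) :
      InTrace b i k

/-- The branch `b` crashes with parity: it has a crash-pair `Z` (nodes `i : ζ` and `j : ¬ζ`, with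
trace `T(i) ∪ T(j)`) such that every critical node `c` on `b` is in the trace of `Z` if and only if
the partner `p` of `c` is. -/
def CrashesWithParity (b : List Node) : Prop :=
  ∃ (i j : ℕ) (ζ : Fml), Has b i ζ ∧ Has b j (.neg ζ) ∧
    ∀ (c p : ℕ) (n : Node), b[c]? = some n → n.partner = some p →
      ((InTrace b i c ∨ InTrace b j c) ↔ (InTrace b i p ∨ InTrace b j p))

/-- `Closes S b`: the branch `b` can be continued, by finitely many applications of the rules, to a
finite tree all of whose branches crash with parity. Here `S` is the set of formulas for which the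
recursive rule may be used. -/
inductive Closes (S : Set Fml) : List Node → Prop
  /-- no further rule is applied, and the branch crashes with parity -/
  | leaf {b : List Node} (h : CrashesWithParity b) : Closes S b
  /-- from `φ ∧ ψ` add `φ, ψ` -/
  | conj {b : List Node} {i : ℕ} {φ ψ : Fml} (hi : Has b i (.conj φ ψ))
      (h : Closes S (b ++ [⟨φ, [i], none⟩, ⟨ψ, [i], none⟩])) : Closes S b
  /-- from `¬(φ ∨ ψ)` add `¬φ, ¬ψ` -/
  | negDisj {b : List Node} {i : ℕ} {φ ψ : Fml} (hi : Has b i (.neg (.disj φ ψ)))
      (h : Closes S (b ++ [⟨.neg φ, [i], none⟩, ⟨.neg ψ, [i], none⟩])) : Closes S b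
  /-- from `¬¬φ` add `φ` -/
  | negNeg {b : List Node} {i : ℕ} {φ : Fml} (hi : Has b i (.neg (.neg φ)))
      (h : Closes S (b ++ [⟨φ, [i], none⟩])) : Closes S b
  /-- from `¬(φ ∧ ψ)` fork into `¬φ | ¬ψ` -/
  | negConj {b : List Node} {i : ℕ} {φ ψ : Fml} (hi : Has b i (.neg (.conj φ ψ)))
      (h₁ : Closes S (b ++ [⟨.neg φ, [i], none⟩]))
      (h₂ : Closes S (b ++ [⟨.neg ψ, [i], none⟩])) : Closes S b
  /-- from `φ ∨ ψ` fork into `φ | ψ` -/
  | disj {b : List Node} {i : ℕ} {φ ψ : Fml} (hi : Has b i (.disj φ ψ))
      (h₁ : Closes S (b ++ [⟨φ, [i], none⟩]))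
      (h₂ : Closes S (b ++ [⟨ψ, [i], none⟩])) : Closes S b
  /-- modus ponens: from `φ` and `φ → ψ` add `ψ` -/
  | mp {b : List Node} {i j : ℕ} {φ ψ : Fml} (hi : Has b i φ) (hj : Has b j (.imp φ ψ))
      (h : Closes S (b ++ [⟨ψ, [i, j], none⟩])) : Closes S b
  /-- counter-case: from `¬(φ → ψ)` add `φ` and `¬ψ`, which are critical and partners -/
  | counter {b : List Node} {i : ℕ} {φ ψ : Fml} (hi : Has b i (.neg (.imp φ ψ)))
      (h : Closes S (b ++ [⟨φ, [i], some (b.length + 1)⟩, ⟨.neg ψ, [i], some b.length⟩])) :
      Closes S b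
  /-- recursive rule: from `φ` add `ψ`, if `φ → ψ` is in `S` -/
  | recursive {b : List Node} {i : ℕ} {φ ψ : Fml} (hi : Has b i φ) (hS : Fml.imp φ ψ ∈ S)
      (h : Closes S (b ++ [⟨ψ, [i], none⟩])) : Closes S b

/-- The set `A` of acceptable formulas: the least set `S` which contains every formula `φ` for
which some truth-tree with root `¬φ`, whose recursive steps use only formulas in `S`, is good (all
its branches crash with parity). -/
def Acceptable : Set Fml :=
  ⋂₀ {S : Set Fml | ∀ φ, Closes S [⟨.neg φ, [], none⟩] → φ ∈ S}

end Pool.Agent.R824.TT
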