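import Pool.Agent.R824.TT.Defs

/-!
An equivalent formulation of closed trees in which each entry carries the set of critical nodes in
its trace.
-/

set_option autoImplicit false

namespace Pool.Agent.R824.TT

/-- Names of critical nodes: the two nodes of the `m`-th critical pair are `(m, false)` and
`(m, true)`. -/
abbrev Nm := ℕ × Bool

/-- Labelled version of `Closes`. -/
inductive Der (S : Set Fml) : List (Fml × Finset Nm) → ℕ → Prop
  | crash {Γ : List (Fml × Finset Nm)} {k : ℕ} {ζ : Fml} {X Y : Finset Nm} (h₁ : (ζ, X) ∈ Γ)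
      (h₂ : (Fml.neg ζ, Y) ∈ Γ) (h : ∀ m, (m, false) ∈ X ∪ Y ↔ (m, true) ∈ X ∪ Y) : Der S Γ k
  | conj {Γ : List (Fml × Finset Nm)} {k : ℕ} {φ ψ : Fml} {X : Finset Nm}
      (hi : (Fml.conj φ ψ, X) ∈ Γ) (h : Der S ((φ, X) :: (ψ, X) :: Γ) k) : Der S Γ k
  | negDisj {Γ : List (Fml × Finset Nm)} {k : ℕ} {φ ψ : Fml} {X : Finset Nm}
      (hi : (Fml.neg (.disj φ ψ), X) ∈ Γ) (h : Der S ((.neg φ, X) :: (.neg ψ, X) :: Γ) k) :
      Der S Γ k
  | negNeg {Γ : List (Fml × Finset Nm)} {k : ℕ} {φ : Fml} {X : Finset Nm}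
      (hi : (Fml.neg (.neg φ), X) ∈ Γ) (h : Der S ((φ, X) :: Γ) k) : Der S Γ k
  | negConj {Γ : List (Fml × Finset Nm)} {k : ℕ} {φ ψ : Fml} {X : Finset Nm}
      (hi : (Fml.neg (.conj φ ψ), X) ∈ Γ) (h₁ : Der S ((.neg φ, X) :: Γ) k)
      (h₂ : Der S ((.neg ψ, X) :: Γ) k) : Der S Γ k
  | disj {Γ : List (Fml × Finset Nm)} {k : ℕ} {φ ψ : Fml} {X : Finset Nm}
      (hi : (Fml.disj φ ψ, X) ∈ Γ) (h₁ : Der S ((φ, X) :: Γ) k)
      (h₂ : Der S ((ψ, X) :: Γ) k) : Der S Γ k
  | mp {Γ : List (Fml × Finset Nm)} {k : ℕ} {φ ψ : Fml} {X Y : Finset Nm}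
      (hi : (φ, X) ∈ Γ) (hj : (Fml.imp φ ψ, Y) ∈ Γ) (h : Der S ((ψ, X ∪ Y) :: Γ) k) : Der S Γ k
  | counter {Γ : List (Fml × Finset Nm)} {k : ℕ} {φ ψ : Fml} {X : Finset Nm}
      (hi : (Fml.neg (.imp φ ψ), X) ∈ Γ)
      (h : Der S ((φ, insert (k, false) X) :: (.neg ψ, insert (k, true) X) :: Γ) (k + 1)) :
      Der S Γ k
  | recursive {Γ : List (Fml × Finset Nm)} {k : ℕ} {φ ψ : Fml} {X : Finset Nm}
      (hi : (φ, X) ∈ Γ) (hS : Fml.imp φ ψ ∈ S) (h : Der S ((ψ, X) :: Γ) k) : Der S Γ k

/-- Inputs come before. -/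
def WF (b : List Node) : Prop := ∀ (i : ℕ) (n : Node) (k : ℕ), b[i]? = some n → k ∈ n.inputs → k < i

theorem InTrace.lt {b : List Node} (h : WF b) {i k : ℕ} (hi : i < b.length) (hk : InTrace b i k) :
    k < b.length := by
  induction hk with
  | self => exact hi
  | input _ hn hk ih => exact (h _ _ _ hn hk).trans ih

theorem getElem?_append_cases {b e : List Node} {i : ℕ} {n : Node} (hin : (b ++ e)[i]? = some n) :
    (i < b.length ∧ b[i]? = some n) ∨ ∃ j, i = b.length + j ∧ e[j]? = some n := by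
  rcases lt_or_ge i b.length with hi | hi
  · rw [List.getElem?_append_left hi] at hin
    exact Or.inl ⟨hi, hin⟩
  · rw [List.getElem?_append_right hi] at hin
    exact Or.inr ⟨i - b.length, by omega, hin⟩

theorem inTrace_append {b e : List Node} (h : WF b) {i k : ℕ} (hi : i < b.length) :
    InTrace (b ++ e) i k ↔ InTrace b i k := by
  constructor
  · intro hk
    have : k < b.length ∧ InTrace b i k := by
      induction hk with
      | self => exact ⟨hi, .self⟩
      | @input j k n _ hn hk ih =>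
        rw [List.getElem?_append_left ih.1] at hn
        exact ⟨(h _ _ _ hn hk).trans ih.1, ih.2.input hn hk⟩
    exact this.2
  · intro hk
    induction hk with
    | self => exact .self
    | input _ hn hk ih => 
      refine ih.input ?_ hk
      rw [List.getElem?_append_left (List.getElem?_eq_some_iff.mp hn).1]
      exact hn

/-- Trace of a new node. -/
theorem inTrace_new {b e : List Node} (h : WF b) {j k : ℕ} {n : Node} (hj : e[j]? = some n)
    (hin : ∀ l ∈ n.inputs, l < b.length) :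
    InTrace (b ++ e) (b.length + j) k ↔ k = b.length + j ∨ ∃ l ∈ n.inputs, InTrace b l k := by
  have hj' : (b ++ e)[b.length + j]? = some n := by
    rw [List.getElem?_append_right (by omega), Nat.add_sub_cancel_left]
    exact hj
  constructor
  · intro hk
    induction hk with
    | self => exact Or.inl rfl
    | @input m k n' _ hn hk ih =>
      right
      rcases ih with rfl | ⟨l, hl, hlm⟩
      · rw [hj'] at hn
        cases hn
        exact ⟨k, hk, .self⟩
      · have hlm' := hlm.lt h (hin l hl)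
        rw [List.getElem?_append_left hlm'] at hn
        exact ⟨l, hl, hlm.input hn hk⟩
  · rintro (rfl | ⟨l, hl, hk⟩)
    · exact .self
    · have h1 : InTrace (b ++ e) l k := (inTrace_append h (hin l hl)).mpr hk
      have h2 : InTrace (b ++ e) (b.length + j) l := InTrace.input .self hj' hl
      clear hk
      induction h1 with
      | self => exact h2
      | input _ hn hk ih => exact ih.input hn hk

/-! ### From trees to derivations -/

/-- The invariant for the translation of trees to derivations. -/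
structure Inv (b : List Node) (Γ : List (Fml × Finset Nm)) (k : ℕ) (X : ℕ → Finset Nm)
    (κ : ℕ → Nm) : Prop where
  wf : WF b
  mem : ∀ (i : ℕ) (n : Node), b[i]? = some n → (n.fml, X i) ∈ Γ
  of_mem : ∀ i < b.length, ∀ a ∈ X i, ∃ (c : ℕ) (n : Node) (p : ℕ), InTrace b i c ∧
    b[c]? = some n ∧ n.partner = some p ∧ κ c = a
  mem_of : ∀ (i c : ℕ) (n : Node) (p : ℕ), i < b.length → InTrace b i c → b[c]? = some n →
    n.partner = some p → κ c ∈ X i
  partner : ∀ (c p : ℕ) (n : Node), b[c]? = some n → n.partner = some p →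
    κ p = ((κ c).1, !(κ c).2) ∧ ∃ n', b[p]? = some n' ∧ n'.partner = some c

theorem Inv.crash {S : Set Fml} {b : List Node} {Γ : List (Fml × Finset Nm)} {k : ℕ}
    {X : ℕ → Finset Nm} {κ : ℕ → Nm} (h : Inv b Γ k X κ) (hc : CrashesWithParity b) :
    Der S Γ k := by
  obtain ⟨i, j, ζ, ⟨n, hn, hnf⟩, ⟨n', hn', hnf'⟩, hp⟩ := hc
  have hi : i < b.length := (List.getElem?_eq_some_iff.mp hn).1
  have hj : j < b.length := (List.getElem?_eq_some_iff.mp hn').1
  have key : ∀ a ∈ X i ∪ X j, (a.1, !a.2) ∈ X i ∪ X j := by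
    intro a ha
    have h1 : ∃ (c : ℕ) (n : Node) (p : ℕ), (InTrace b i c ∨ InTrace b j c) ∧ b[c]? = some n ∧
        n.partner = some p ∧ κ c = a := by
      rcases Finset.mem_union.mp ha with ha | ha
      · obtain ⟨c, n, p, h1, h2, h3, h4⟩ := h.of_mem i hi a ha
        exact ⟨c, n, p, Or.inl h1, h2, h3, h4⟩
      · obtain ⟨c, n, p, h1, h2, h3, h4⟩ := h.of_mem j hj a ha
        exact ⟨c, n, p, Or.inr h1, h2, h3, h4⟩
    obtain ⟨c, m, p, hT, hcm, hcp, rfl⟩ := h1
    obtain ⟨h2, m', hpm, hpc⟩ := h.partner c p m hcm hcp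
    rw [← h2]
    rcases (hp c p m hcm hcp).mp hT with h3 | h3
    · exact Finset.mem_union_left _ (h.mem_of i p m' c hi h3 hpm hpc)
    · exact Finset.mem_union_right _ (h.mem_of j p m' c hj h3 hpm hpc)
  refine .crash (X := X i) (Y := X j) (ζ := ζ) (hnf ▸ h.mem i n hn) (hnf' ▸ h.mem j n' hn') ?_
  intro m
  exact ⟨fun h => key _ h, fun h => key _ h⟩

/-- Extending the invariant by one non-critical node. -/
theorem Inv.one {b : List Node} {Γ : List (Fml × Finset Nm)} {k : ℕ}
    {X : ℕ → Finset Nm} {κ : ℕ → Nm} (h : Inv b Γ k X κ) (φ : Fml) (l : List ℕ)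
    (hl : ∀ i ∈ l, i < b.length) (Y : Finset Nm) (hY : ∀ a, a ∈ Y ↔ ∃ i ∈ l, a ∈ X i) :
    Inv (b ++ [⟨φ, l, none⟩]) ((φ, Y) :: Γ) k (Function.update X b.length Y) κ := by
  have hwf : WF (b ++ [⟨φ, l, none⟩]) := by
    intro i n k hin hk
    rcases getElem?_append_cases hin with ⟨hi, hn⟩ | ⟨j, rfl, hn⟩
    · exact h.wf i n k hn hk
    · rcases j with _ | j
      · simp only [List.getElem?_cons_zero, Option.some.injEq] at hn
        subst hn
        exact hl k hk
      · simp at hn
  have hcrit : ∀ (c p : ℕ) (n : Node), (b ++ [⟨φ, l, none⟩])[c]? = some n → n.partner = some p →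
      b[c]? = some n ∧ c < b.length := by
    intro c p n hin hp
    rcases getElem?_append_cases hin with ⟨hi, hn⟩ | ⟨j, rfl, hn⟩
    · exact ⟨hn, hi⟩
    · rcases j with _ | j
      · simp only [List.getElem?_cons_zero, Option.some.injEq] at hn
        subst hn
        simp at hp
      · simp at hn
  have hold : ∀ (c : ℕ) (n : Node), b[c]? = some n → (b ++ [⟨φ, l, none⟩])[c]? = some n := by
    intro c n hn
    rw [List.getElem?_append_left (List.getElem?_eq_some_iff.mp hn).1]
    exact hn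
  have hnew : ∀ c, InTrace (b ++ [⟨φ, l, none⟩]) b.length c ↔
      c = b.length ∨ ∃ i ∈ l, InTrace b i c := by
    intro c
    exact inTrace_new (j := 0) h.wf (n := ⟨φ, l, none⟩) rfl hl
  refine ⟨hwf, ?_, ?_, ?_, ?_⟩
  · intro i n hin
    rcases getElem?_append_cases hin with ⟨hi, hn⟩ | ⟨j, rfl, hn⟩
    · rw [Function.update_of_ne hi.ne]
      exact List.mem_cons_of_mem _ (h.mem i n hn)
    · rcases j with _ | j
      · simp only [List.getElem?_cons_zero, Option.some.injEq] at hn
        subst hn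
        simp
      · simp at hn
  · intro i hi a ha
    rcases lt_or_ge i b.length with hib | hib
    · rw [Function.update_of_ne hib.ne] at ha
      obtain ⟨c, n, p, h1, h2, h3, h4⟩ := h.of_mem i hib a ha
      exact ⟨c, n, p, (inTrace_append h.wf hib).mpr h1, hold c n h2, h3, h4⟩
    · have hib' : i = b.length := by
        simp at hi
        omega
      subst hib'
      rw [Function.update_self] at ha
      obtain ⟨i, hil, hai⟩ := (hY a).mp ha
      obtain ⟨c, n, p, h1, h2, h3, h4⟩ := h.of_mem i (hl i hil) a hai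
      exact ⟨c, n, p, (hnew c).mpr (Or.inr ⟨i, hil, h1⟩), hold c n h2, h3, h4⟩
  · intro i c n p hi hT hcn hcp
    obtain ⟨hcn', hcb⟩ := hcrit c p n hcn hcp
    rcases lt_or_ge i b.length with hib | hib
    · rw [Function.update_of_ne hib.ne]
      exact h.mem_of i c n p hib ((inTrace_append h.wf hib).mp hT) hcn' hcp
    · have hib' : i = b.length := by
        simp at hi
        omega
      subst hib'
      rw [Function.update_self]
      rcases (hnew c).mp hT with rfl | ⟨i, hil, hT'⟩
      · exact absurd hcb (lt_irrefl _)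
      · exact (hY _).mpr ⟨i, hil, h.mem_of i c n p (hl i hil) hT' hcn' hcp⟩
  · intro c p n hcn hcp
    obtain ⟨hcn', hcb⟩ := hcrit c p n hcn hcp
    obtain ⟨h1, n', h2, h3⟩ := h.partner c p n hcn' hcp
    exact ⟨h1, n', hold p n' h2, h3⟩

theorem Der.mono {S S' : Set Fml} (hS : S ⊆ S') {Γ : List (Fml × Finset Nm)} {k : ℕ}
    (h : Der S Γ k) : ∀ {Γ' : List (Fml × Finset Nm)}, Γ ⊆ Γ' → Der S' Γ' k := by
  induction h with
  | crash h₁ h₂ h => exact fun hΓ => .crash (hΓ h₁) (hΓ h₂) h
  | conj hi _ ih =>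
    exact fun hΓ => .conj (hΓ hi) (ih (List.cons_subset_cons _ (List.cons_subset_cons _ hΓ)))
  | negDisj hi _ ih =>
    exact fun hΓ => .negDisj (hΓ hi) (ih (List.cons_subset_cons _ (List.cons_subset_cons _ hΓ)))
  | negNeg hi _ ih => exact fun hΓ => .negNeg (hΓ hi) (ih (List.cons_subset_cons _ hΓ))
  | negConj hi _ _ ih₁ ih₂ =>
    exact fun hΓ => .negConj (hΓ hi) (ih₁ (List.cons_subset_cons _ hΓ))
      (ih₂ (List.cons_subset_cons _ hΓ))
  | disj hi _ _ ih₁ ih₂ =>
    exact fun hΓ => .disj (hΓ hi) (ih₁ (List.cons_subset_cons _ hΓ))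
      (ih₂ (List.cons_subset_cons _ hΓ))
  | mp hi hj _ ih => exact fun hΓ => .mp (hΓ hi) (hΓ hj) (ih (List.cons_subset_cons _ hΓ))
  | counter hi _ ih =>
    exact fun hΓ => .counter (hΓ hi) (ih (List.cons_subset_cons _ (List.cons_subset_cons _ hΓ)))
  | recursive hi h' _ ih =>
    exact fun hΓ => .recursive (hΓ hi) (hS h') (ih (List.cons_subset_cons _ hΓ))

/-- Extending the invariant by a critical pair. -/
theorem Inv.pair {b : List Node} {Γ : List (Fml × Finset Nm)} {k : ℕ}
    {X : ℕ → Finset Nm} {κ : ℕ → Nm} (h : Inv b Γ k X κ) (φ ψ : Fml) (l : ℕ)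
    (hl : l < b.length) :
    Inv (b ++ [⟨φ, [l], some (b.length + 1)⟩, ⟨ψ, [l], some b.length⟩])
      ((φ, insert (k, false) (X l)) :: (ψ, insert (k, true) (X l)) :: Γ) (k + 1)
      (fun i => if i = b.length then insert (k, false) (X l) else
        if i = b.length + 1 then insert (k, true) (X l) else X i)
      (fun i => if i = b.length then (k, false) else
        if i = b.length + 1 then (k, true) else κ i) := by
  set b' := b ++ [⟨φ, [l], some (b.length + 1)⟩, ⟨ψ, [l], some b.length⟩] with hb'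
  have hcases : ∀ (i : ℕ) (n : Node), b'[i]? = some n → (i < b.length ∧ b[i]? = some n) ∨
      (i = b.length ∧ n = ⟨φ, [l], some (b.length + 1)⟩) ∨
      (i = b.length + 1 ∧ n = ⟨ψ, [l], some b.length⟩) := by
    intro i n hin
    rcases getElem?_append_cases hin with ⟨hi, hn⟩ | ⟨j, rfl, hn⟩
    · exact Or.inl ⟨hi, hn⟩
    · rcases j with _ | _ | j
      · simp only [List.getElem?_cons_zero, Option.some.injEq] at hn
        exact Or.inr (Or.inl ⟨rfl, hn.symm⟩)
      · simp only [List.getElem?_cons_succ, List.getElem?_cons_zero, zero_add,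
          Option.some.injEq] at hn
        exact Or.inr (Or.inr ⟨rfl, hn.symm⟩)
      · simp at hn
  have hold : ∀ (c : ℕ) (n : Node), b[c]? = some n → b'[c]? = some n := by
    intro c n hn
    rw [hb', List.getElem?_append_left (List.getElem?_eq_some_iff.mp hn).1]
    exact hn
  have hg0 : b'[b.length]? = some ⟨φ, [l], some (b.length + 1)⟩ := by
    rw [hb', List.getElem?_append_right le_rfl, Nat.sub_self]
    rfl
  have hg1 : b'[b.length + 1]? = some ⟨ψ, [l], some b.length⟩ := by
    rw [hb', List.getElem?_append_right (by omega), Nat.add_sub_cancel_left]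
    rfl
  have hnew0 : ∀ c, InTrace b' b.length c ↔ c = b.length ∨ InTrace b l c := by
    intro c
    have := inTrace_new (b := b) (e := [⟨φ, [l], some (b.length + 1)⟩, ⟨ψ, [l], some b.length⟩])
      (j := 0) (k := c) h.wf (n := ⟨φ, [l], some (b.length + 1)⟩) rfl (by simpa using hl)
    simpa using this
  have hnew1 : ∀ c, InTrace b' (b.length + 1) c ↔ c = b.length + 1 ∨ InTrace b l c := by
    intro c
    have := inTrace_new (b := b) (e := [⟨φ, [l], some (b.length + 1)⟩, ⟨ψ, [l], some b.length⟩])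
      (j := 1) (k := c) h.wf (n := ⟨ψ, [l], some b.length⟩) rfl (by simpa using hl)
    simpa using this
  have hlen : b'.length = b.length + 2 := by simp [hb']
  refine ⟨?_, ?_, ?_, ?_, ?_⟩
  · intro i n k hin hk
    rcases hcases i n hin with ⟨hi, hn⟩ | ⟨rfl, rfl⟩ | ⟨rfl, rfl⟩
    · exact h.wf i n k hn hk
    · simp at hk; omega
    · simp at hk; omega
  · intro i n hin
    rcases hcases i n hin with ⟨hi, hn⟩ | ⟨rfl, rfl⟩ | ⟨rfl, rfl⟩
    · rw [if_neg (by omega), if_neg (by omega)]
      exact List.mem_cons_of_mem _ (List.mem_cons_of_mem _ (h.mem i n hn))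
    · simp
    · simp
  · intro i hi a ha
    rw [hlen] at hi
    rcases lt_or_ge i b.length with hib | hib
    · rw [if_neg (by omega), if_neg (by omega)] at ha
      obtain ⟨c, n, p, h1, h2, h3, h4⟩ := h.of_mem i hib a ha
      have hcb := h1.lt h.wf hib
      refine ⟨c, n, p, (inTrace_append h.wf hib).mpr h1, hold c n h2, h3, ?_⟩
      rw [if_neg (by omega), if_neg (by omega)]
      exact h4
    · have hii : i = b.length ∨ i = b.length + 1 := by omega
      rcases hii with rfl | rfl
      · rw [if_pos rfl] at ha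
        rcases Finset.mem_insert.mp ha with rfl | ha
        · exact ⟨b.length, _, _, .self, hg0, rfl, by simp⟩
        · obtain ⟨c, n, p, h1, h2, h3, h4⟩ := h.of_mem l hl a ha
          have hcb := h1.lt h.wf hl
          refine ⟨c, n, p, (hnew0 c).mpr (Or.inr h1), hold c n h2, h3, ?_⟩
          rw [if_neg (by omega), if_neg (by omega)]
          exact h4
      · rw [if_neg (by omega), if_pos rfl] at ha
        rcases Finset.mem_insert.mp ha with rfl | ha
        · exact ⟨b.length + 1, _, _, .self, hg1, rfl, by simp⟩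
        · obtain ⟨c, n, p, h1, h2, h3, h4⟩ := h.of_mem l hl a ha
          have hcb := h1.lt h.wf hl
          refine ⟨c, n, p, (hnew1 c).mpr (Or.inr h1), hold c n h2, h3, ?_⟩
          rw [if_neg (by omega), if_neg (by omega)]
          exact h4
  · intro i c n p hi hT hcn hcp
    rw [hlen] at hi
    have hii : i < b.length ∨ i = b.length ∨ i = b.length + 1 := by omega
    rcases hii with hib | rfl | rfl
    · have hT' := (inTrace_append h.wf hib).mp hT
      have hcb := hT'.lt h.wf hib
      rcases hcases c n hcn with ⟨hi, hn⟩ | ⟨rfl, rfl⟩ | ⟨rfl, rfl⟩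
      · simp only [if_neg hib.ne, if_neg (show i ≠ b.length + 1 by omega), if_neg hcb.ne,
          if_neg (show c ≠ b.length + 1 by omega)]
        exact h.mem_of i c n p hib hT' hn hcp
      · omega
      · omega
    · rcases (hnew0 c).mp hT with rfl | hT'
      · simp
      · have hcb := hT'.lt h.wf hl
        rcases hcases c n hcn with ⟨hi, hn⟩ | ⟨rfl, rfl⟩ | ⟨rfl, rfl⟩
        · simp only [if_pos, if_neg hcb.ne, if_neg (show c ≠ b.length + 1 by omega)]
          exact Finset.mem_insert_of_mem (h.mem_of l c n p hl hT' hn hcp)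
        · omega
        · omega
    · rcases (hnew1 c).mp hT with rfl | hT'
      · simp
      · have hcb := hT'.lt h.wf hl
        rcases hcases c n hcn with ⟨hi, hn⟩ | ⟨rfl, rfl⟩ | ⟨rfl, rfl⟩
        · simp only [if_neg (show b.length + 1 ≠ b.length by omega), if_pos, if_neg hcb.ne,
            if_neg (show c ≠ b.length + 1 by omega)]
          exact Finset.mem_insert_of_mem (h.mem_of l c n p hl hT' hn hcp)
        · omega
        · omega
  · intro c p n hcn hcp
    rcases hcases c n hcn with ⟨hi, hn⟩ | ⟨rfl, rfl⟩ | ⟨rfl, rfl⟩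
    · obtain ⟨h1, n', h2, h3⟩ := h.partner c p n hn hcp
      have hpb : p < b.length := (List.getElem?_eq_some_iff.mp h2).1
      simp only [if_neg hi.ne, if_neg (show c ≠ b.length + 1 by omega), if_neg hpb.ne,
        if_neg (show p ≠ b.length + 1 by omega)]
      exact ⟨h1, n', hold p n' h2, h3⟩
    · simp only [Option.some.injEq] at hcp
      subst hcp
      exact ⟨by simp, _, hg1, rfl⟩
    · simp only [Option.some.injEq] at hcp
      subst hcp
      exact ⟨by simp, _, hg0, rfl⟩

theorem der_of_closes_aux {S : Set Fml} {b : List Node} (h : Closes S b) :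
    ∀ {Γ : List (Fml × Finset Nm)} {k : ℕ} {X : ℕ → Finset Nm} {κ : ℕ → Nm}, Inv b Γ k X κ →
      Der S Γ k := by
  have swap : ∀ {x y : Fml × Finset Nm} {Γ : List (Fml × Finset Nm)} {k : ℕ},
      Der S (x :: y :: Γ) k → Der S (y :: x :: Γ) k := by
    intro x y Γ k h
    refine h.mono le_rfl ?_
    intro z hz
    simp only [List.mem_cons] at hz ⊢
    tauto
  have app : ∀ (b : List Node) (x y : Node), b ++ [x, y] = (b ++ [x]) ++ [y] := by simp
  induction h with
  | leaf h => exact fun hI => hI.crash h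
  | @conj b i φ ψ hi _ ih =>
    intro Γ k X κ hI
    obtain ⟨n, hn, hnf⟩ := hi
    have hib : i < b.length := (List.getElem?_eq_some_iff.mp hn).1
    have h1 := hI.one φ [i] (by simpa using hib) (X i) (by simp)
    have h2 := h1.one ψ [i] (by simp; omega) (X i)
      (by simp [Function.update_of_ne hib.ne])
    rw [← app] at h2
    exact .conj (hnf ▸ hI.mem i n hn) (swap (ih h2))
  | @negDisj b i φ ψ hi _ ih =>
    intro Γ k X κ hI
    obtain ⟨n, hn, hnf⟩ := hi
    have hib : i < b.length := (List.getElem?_eq_some_iff.mp hn).1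
    have h1 := hI.one (.neg φ) [i] (by simpa using hib) (X i) (by simp)
    have h2 := h1.one (.neg ψ) [i] (by simp; omega) (X i)
      (by simp [Function.update_of_ne hib.ne])
    rw [← app] at h2
    exact .negDisj (hnf ▸ hI.mem i n hn) (swap (ih h2))
  | @negNeg b i φ hi _ ih =>
    intro Γ k X κ hI
    obtain ⟨n, hn, hnf⟩ := hi
    have hib : i < b.length := (List.getElem?_eq_some_iff.mp hn).1
    exact .negNeg (hnf ▸ hI.mem i n hn) (ih (hI.one φ [i] (by simpa using hib) (X i) (by simp)))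
  | @negConj b i φ ψ hi _ _ ih₁ ih₂ =>
    intro Γ k X κ hI
    obtain ⟨n, hn, hnf⟩ := hi
    have hib : i < b.length := (List.getElem?_eq_some_iff.mp hn).1
    exact .negConj (hnf ▸ hI.mem i n hn)
      (ih₁ (hI.one _ [i] (by simpa using hib) (X i) (by simp)))
      (ih₂ (hI.one _ [i] (by simpa using hib) (X i) (by simp)))
  | @disj b i φ ψ hi _ _ ih₁ ih₂ =>
    intro Γ k X κ hI
    obtain ⟨n, hn, hnf⟩ := hi
    have hib : i < b.length := (List.getElem?_eq_some_iff.mp hn).1
    exact .disj (hnf ▸ hI.mem i n hn)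
      (ih₁ (hI.one _ [i] (by simpa using hib) (X i) (by simp)))
      (ih₂ (hI.one _ [i] (by simpa using hib) (X i) (by simp)))
  | @mp b i j φ ψ hi hj _ ih =>
    intro Γ k X κ hI
    obtain ⟨n, hn, hnf⟩ := hi
    obtain ⟨n', hn', hnf'⟩ := hj
    have hib : i < b.length := (List.getElem?_eq_some_iff.mp hn).1
    have hjb : j < b.length := (List.getElem?_eq_some_iff.mp hn').1
    exact .mp (hnf ▸ hI.mem i n hn) (hnf' ▸ hI.mem j n' hn')
      (ih (hI.one _ [i, j] (by simpa using ⟨hib, hjb⟩) (X i ∪ X j) (by simp)))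
  | @counter b i φ ψ hi _ ih =>
    intro Γ k X κ hI
    obtain ⟨n, hn, hnf⟩ := hi
    have hib : i < b.length := (List.getElem?_eq_some_iff.mp hn).1
    exact .counter (hnf ▸ hI.mem i n hn) (ih (hI.pair φ (.neg ψ) i hib))
  | @recursive b i φ ψ hi hS _ ih =>
    intro Γ k X κ hI
    obtain ⟨n, hn, hnf⟩ := hi
    have hib : i < b.length := (List.getElem?_eq_some_iff.mp hn).1
    exact .recursive (hnf ▸ hI.mem i n hn) hS
      (ih (hI.one _ [i] (by simpa using hib) (X i) (by simp)))

theorem der_of_closes {S : Set Fml} {φ : Fml} (h : Closes S [⟨φ, [], none⟩]) :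
    Der S [(φ, ∅)] 0 := by
  refine der_of_closes_aux h (X := fun _ => ∅) (κ := fun _ => (0, false)) ⟨?_, ?_, ?_, ?_, ?_⟩
  · intro i n k hn hk
    rcases i with _ | i
    · simp only [List.getElem?_cons_zero, Option.some.injEq] at hn
      subst hn
      simp at hk
    · simp at hn
  · intro i n hn
    rcases i with _ | i
    · simp only [List.getElem?_cons_zero, Option.some.injEq] at hn
      subst hn
      simp
    · simp at hn
  · intro i _ a ha
    simp at ha
  · intro i c n p _ _ hn hp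
    rcases c with _ | c
    · simp only [List.getElem?_cons_zero, Option.some.injEq] at hn
      subst hn
      simp at hp
    · simp at hn
  · intro c p n hn hp
    rcases c with _ | c
    · simp only [List.getElem?_cons_zero, Option.some.injEq] at hn
      subst hn
      simp at hp
    · simp at hn

/-! ### From derivations to trees -/

/-- The invariant for the translation of derivations to trees. -/
structure Inv' (Γ : List (Fml × Finset Nm)) (k : ℕ) (b : List Node) (κ : ℕ → Nm) : Prop where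
  wf : WF b
  mem : ∀ (φ : Fml) (X : Finset Nm), (φ, X) ∈ Γ → ∃ i < b.length, Has b i φ ∧
    ∀ (c : ℕ) (n : Node) (p : ℕ), b[c]? = some n → n.partner = some p →
      (InTrace b i c ↔ κ c ∈ X)
  partner : ∀ (c p : ℕ) (n : Node), b[c]? = some n → n.partner = some p →
    κ p = ((κ c).1, !(κ c).2) ∧ (κ c).1 < k ∧ ∃ n', b[p]? = some n' ∧ n'.partner = some c
  bound : ∀ (φ : Fml) (X : Finset Nm), (φ, X) ∈ Γ → ∀ a ∈ X, a.1 < k

theorem Inv'.crash {Γ : List (Fml × Finset Nm)} {k : ℕ} {b : List Node} {κ : ℕ → Nm}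
    (hI : Inv' Γ k b κ) {ζ : Fml} {X Y : Finset Nm} (h₁ : (ζ, X) ∈ Γ) (h₂ : (Fml.neg ζ, Y) ∈ Γ)
    (h : ∀ m, (m, false) ∈ X ∪ Y ↔ (m, true) ∈ X ∪ Y) : CrashesWithParity b := by
  obtain ⟨i, hib, hi, hiX⟩ := hI.mem _ _ h₁
  obtain ⟨j, hjb, hj, hjY⟩ := hI.mem _ _ h₂
  refine ⟨i, j, ζ, hi, hj, ?_⟩
  intro c p n hn hp
  obtain ⟨h1, -, n', hn', hp'⟩ := hI.partner c p n hn hp
  rw [hiX c n p hn hp, hjY c n p hn hp, hiX p n' c hn' hp', hjY p n' c hn' hp', ← Finset.mem_union,
    ← Finset.mem_union, h1]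
  rcases hκ : κ c with ⟨m, s⟩
  cases s
  · exact h m
  · exact (h m).symm

theorem Inv'.one {Γ : List (Fml × Finset Nm)} {k : ℕ} {b : List Node} {κ : ℕ → Nm}
    (hI : Inv' Γ k b κ) (φ : Fml) (l : List ℕ) (Y : Finset Nm) (hl : ∀ i ∈ l, i < b.length)
    (hY : ∀ (c : ℕ) (n : Node) (p : ℕ), b[c]? = some n → n.partner = some p →
      ((∃ i ∈ l, InTrace b i c) ↔ κ c ∈ Y)) (hYk : ∀ a ∈ Y, a.1 < k) :
    Inv' ((φ, Y) :: Γ) k (b ++ [⟨φ, l, none⟩]) κ := by
  have hcases : ∀ (i : ℕ) (n : Node), (b ++ [⟨φ, l, none⟩])[i]? = some n →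
      (i < b.length ∧ b[i]? = some n) ∨ (i = b.length ∧ n = ⟨φ, l, none⟩) := by
    intro i n hin
    rcases getElem?_append_cases hin with ⟨hi, hn⟩ | ⟨j, rfl, hn⟩
    · exact Or.inl ⟨hi, hn⟩
    · rcases j with _ | j
      · simp only [List.getElem?_cons_zero, Option.some.injEq] at hn
        exact Or.inr ⟨rfl, hn.symm⟩
      · simp at hn
  have hold : ∀ (c : ℕ) (n : Node), b[c]? = some n → (b ++ [⟨φ, l, none⟩])[c]? = some n := by
    intro c n hn
    rw [List.getElem?_append_left (List.getElem?_eq_some_iff.mp hn).1]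
    exact hn
  have hg0 : (b ++ [⟨φ, l, none⟩])[b.length]? = some ⟨φ, l, none⟩ := by
    rw [List.getElem?_append_right le_rfl, Nat.sub_self]
    rfl
  have hnew : ∀ c, InTrace (b ++ [⟨φ, l, none⟩]) b.length c ↔
      c = b.length ∨ ∃ i ∈ l, InTrace b i c := by
    intro c
    exact inTrace_new (j := 0) hI.wf (n := ⟨φ, l, none⟩) rfl hl
  have hcrit : ∀ (c p : ℕ) (n : Node), (b ++ [⟨φ, l, none⟩])[c]? = some n → n.partner = some p →
      b[c]? = some n ∧ c < b.length := by
    intro c p n hin hp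
    rcases hcases c n hin with ⟨hi, hn⟩ | ⟨rfl, rfl⟩
    · exact ⟨hn, hi⟩
    · simp at hp
  refine ⟨?_, ?_, ?_, ?_⟩
  · intro i n k hin hk
    rcases hcases i n hin with ⟨hi, hn⟩ | ⟨rfl, rfl⟩
    · exact hI.wf i n k hn hk
    · exact hl k hk
  · intro ψ X hX
    rcases List.mem_cons.mp hX with h | h
    · cases h
      refine ⟨b.length, by simp, ⟨_, hg0, rfl⟩, ?_⟩
      intro c n p hn hp
      obtain ⟨hn', hcb⟩ := hcrit c p n hn hp
      rw [hnew c, ← hY c n p hn' hp]
      exact or_iff_right hcb.ne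
    · obtain ⟨i, hib, ⟨n₀, hn₀, hn₀'⟩, hi⟩ := hI.mem ψ X h
      refine ⟨i, by simp; omega, ⟨n₀, hold _ _ hn₀, hn₀'⟩, ?_⟩
      intro c n p hn hp
      obtain ⟨hn', hcb⟩ := hcrit c p n hn hp
      rw [inTrace_append hI.wf hib]
      exact hi c n p hn' hp
  · intro c p n hn hp
    obtain ⟨hn', hcb⟩ := hcrit c p n hn hp
    obtain ⟨h1, h2, n', h3, h4⟩ := hI.partner c p n hn' hp
    exact ⟨h1, h2, n', hold _ _ h3, h4⟩
  · intro ψ X hX
    rcases List.mem_cons.mp hX with h | h
    · cases h
      exact hYk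
    · exact hI.bound ψ X h

theorem Inv'.pair {Γ : List (Fml × Finset Nm)} {k : ℕ} {b : List Node} {κ : ℕ → Nm}
    (hI : Inv' Γ k b κ) (φ ψ : Fml) (l : ℕ) (X : Finset Nm) (hl : l < b.length)
    (hX : ∀ (c : ℕ) (n : Node) (p : ℕ), b[c]? = some n → n.partner = some p →
      (InTrace b l c ↔ κ c ∈ X)) (hXk : ∀ a ∈ X, a.1 < k) :
    Inv' ((φ, insert (k, false) X) :: (ψ, insert (k, true) X) :: Γ) (k + 1)
      (b ++ [⟨φ, [l], some (b.length + 1)⟩, ⟨ψ, [l], some b.length⟩])
      (fun i => if i = b.length then (k, false) else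
        if i = b.length + 1 then (k, true) else κ i) := by
  set b' := b ++ [⟨φ, [l], some (b.length + 1)⟩, ⟨ψ, [l], some b.length⟩] with hb'
  have hcases : ∀ (i : ℕ) (n : Node), b'[i]? = some n → (i < b.length ∧ b[i]? = some n) ∨
      (i = b.length ∧ n = ⟨φ, [l], some (b.length + 1)⟩) ∨
      (i = b.length + 1 ∧ n = ⟨ψ, [l], some b.length⟩) := by
    intro i n hin
    rcases getElem?_append_cases hin with ⟨hi, hn⟩ | ⟨j, rfl, hn⟩
    · exact Or.inl ⟨hi, hn⟩
    · rcases j with _ | _ | j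
      · simp only [List.getElem?_cons_zero, Option.some.injEq] at hn
        exact Or.inr (Or.inl ⟨rfl, hn.symm⟩)
      · simp only [List.getElem?_cons_succ, List.getElem?_cons_zero, zero_add,
          Option.some.injEq] at hn
        exact Or.inr (Or.inr ⟨rfl, hn.symm⟩)
      · simp at hn
  have hold : ∀ (c : ℕ) (n : Node), b[c]? = some n → b'[c]? = some n := by
    intro c n hn
    rw [hb', List.getElem?_append_left (List.getElem?_eq_some_iff.mp hn).1]
    exact hn
  have hg0 : b'[b.length]? = some ⟨φ, [l], some (b.length + 1)⟩ := by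
    rw [hb', List.getElem?_append_right le_rfl, Nat.sub_self]
    rfl
  have hg1 : b'[b.length + 1]? = some ⟨ψ, [l], some b.length⟩ := by
    rw [hb', List.getElem?_append_right (by omega), Nat.add_sub_cancel_left]
    rfl
  have hnew0 : ∀ c, InTrace b' b.length c ↔ c = b.length ∨ InTrace b l c := by
    intro c
    have := inTrace_new (b := b) (e := [⟨φ, [l], some (b.length + 1)⟩, ⟨ψ, [l], some b.length⟩])
      (j := 0) (k := c) hI.wf (n := ⟨φ, [l], some (b.length + 1)⟩) rfl (by simpa using hl)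
    simpa using this
  have hnew1 : ∀ c, InTrace b' (b.length + 1) c ↔ c = b.length + 1 ∨ InTrace b l c := by
    intro c
    have := inTrace_new (b := b) (e := [⟨φ, [l], some (b.length + 1)⟩, ⟨ψ, [l], some b.length⟩])
      (j := 1) (k := c) hI.wf (n := ⟨ψ, [l], some b.length⟩) rfl (by simpa using hl)
    simpa using this
  have hlen : b'.length = b.length + 2 := by simp [hb']
  have hfr : ∀ (c : ℕ) (n : Node) (p : ℕ), b[c]? = some n → n.partner = some p → ∀ s,
      κ c ≠ (k, s) := by
    intro c n p hn hp s hs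
    have := (hI.partner c p n hn hp).2.1
    rw [hs] at this
    exact lt_irrefl _ this
  have hkX : ∀ s, (k, s) ∉ X := fun s hs => lt_irrefl _ (hXk _ hs)
  have nT : ∀ {i c : ℕ}, i < b.length → b.length ≤ c → ¬ InTrace b i c := by
    intro i c hi hc hT
    have := hT.lt hI.wf hi
    omega
  refine ⟨?_, ?_, ?_, ?_⟩
  · intro i n k hin hk
    rcases hcases i n hin with ⟨hi, hn⟩ | ⟨rfl, rfl⟩ | ⟨rfl, rfl⟩
    · exact hI.wf i n k hn hk
    · simp at hk; omega
    · simp at hk; omega
  · intro θ Y hY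
    simp only [List.mem_cons, Prod.mk.injEq] at hY
    rcases hY with ⟨rfl, rfl⟩ | ⟨rfl, rfl⟩ | hY
    · refine ⟨b.length, by omega, ⟨_, hg0, rfl⟩, ?_⟩
      intro c n p hn hp
      rw [hnew0]
      rcases hcases c n hn with ⟨hi, hn⟩ | ⟨rfl, rfl⟩ | ⟨rfl, rfl⟩
      · have h1 := hfr c n p hn hp false
        rw [if_neg hi.ne, if_neg (show c ≠ b.length + 1 by omega), Finset.mem_insert,
          or_iff_right h1, or_iff_right hi.ne]
        exact hX c n p hn hp
      · simp
      · simp [nT hl (show b.length ≤ b.length + 1 by omega), hkX]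
    · refine ⟨b.length + 1, by omega, ⟨_, hg1, rfl⟩, ?_⟩
      intro c n p hn hp
      rw [hnew1]
      rcases hcases c n hn with ⟨hi, hn⟩ | ⟨rfl, rfl⟩ | ⟨rfl, rfl⟩
      · have h1 := hfr c n p hn hp true
        rw [if_neg hi.ne, if_neg (show c ≠ b.length + 1 by omega), Finset.mem_insert,
          or_iff_right h1, or_iff_right (show c ≠ b.length + 1 by omega)]
        exact hX c n p hn hp
      · simp [nT hl le_rfl, hkX]
      · simp
    · obtain ⟨i, hib, ⟨n₀, hn₀, hn₀'⟩, hi⟩ := hI.mem θ Y hY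
      have hkY : ∀ s, (k, s) ∉ Y := fun s hs => lt_irrefl _ (hI.bound θ Y hY _ hs)
      refine ⟨i, by omega, ⟨n₀, hold _ _ hn₀, hn₀'⟩, ?_⟩
      intro c n p hn hp
      rw [inTrace_append hI.wf hib]
      rcases hcases c n hn with ⟨hic, hn⟩ | ⟨rfl, rfl⟩ | ⟨rfl, rfl⟩
      · simp only [if_neg hic.ne, if_neg (show c ≠ b.length + 1 by omega)]
        exact hi c n p hn hp
      · simp [nT hib le_rfl, hkY]
      · simp [nT hib (show b.length ≤ b.length + 1 by omega), hkY]
  · intro c p n hn hp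
    rcases hcases c n hn with ⟨hi, hn⟩ | ⟨rfl, rfl⟩ | ⟨rfl, rfl⟩
    · obtain ⟨h1, h2, n', h3, h4⟩ := hI.partner c p n hn hp
      have hpb : p < b.length := (List.getElem?_eq_some_iff.mp h3).1
      simp only [if_neg hi.ne, if_neg (show c ≠ b.length + 1 by omega), if_neg hpb.ne,
        if_neg (show p ≠ b.length + 1 by omega)]
      exact ⟨h1, by omega, n', hold p n' h3, h4⟩
    · simp only [Option.some.injEq] at hp
      subst hp
      exact ⟨by simp, by simp, _, hg1, rfl⟩
    · simp only [Option.some.injEq] at hp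
      subst hp
      exact ⟨by simp, by simp, _, hg0, rfl⟩
  · intro θ Y hY a ha
    simp only [List.mem_cons, Prod.mk.injEq] at hY
    rcases hY with ⟨rfl, rfl⟩ | ⟨rfl, rfl⟩ | hY
    · rcases Finset.mem_insert.mp ha with rfl | ha
      · simp
      · have := hXk a ha
        omega
    · rcases Finset.mem_insert.mp ha with rfl | ha
      · simp
      · have := hXk a ha
        omega
    · have := hI.bound θ Y hY a ha
      omega

theorem closes_of_der_aux {S : Set Fml} {Γ : List (Fml × Finset Nm)} {k : ℕ} (h : Der S Γ k) :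
    ∀ {b : List Node} {κ : ℕ → Nm}, Inv' Γ k b κ → Closes S b := by
  have app : ∀ (b : List Node) (x y : Node), b ++ [x, y] = (b ++ [x]) ++ [y] := by simp
  have two : ∀ {Γ : List (Fml × Finset Nm)} {k : ℕ} {b : List Node} {κ : ℕ → Nm} {i : ℕ}
      (φ ψ : Fml) {X : Finset Nm}, Inv' Γ k b κ → i < b.length →
      (∀ (c : ℕ) (n : Node) (p : ℕ), b[c]? = some n → n.partner = some p →
        (InTrace b i c ↔ κ c ∈ X)) → (∀ a ∈ X, a.1 < k) →
      Inv' ((φ, X) :: (ψ, X) :: Γ) k (b ++ [⟨ψ, [i], none⟩, ⟨φ, [i], none⟩]) κ := by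
    intro Γ k b κ i φ ψ X hI hib hX hXk
    have h1 := hI.one ψ [i] X (by simpa using hib) (by simpa using hX) hXk
    rw [app]
    refine h1.one φ [i] X (by simp; omega) ?_ hXk
    intro c n p hn hp
    have hn' : b[c]? = some n := by
      rcases getElem?_append_cases hn with ⟨hi, hn⟩ | ⟨j, rfl, hj'⟩
      · exact hn
      · rcases j with _ | j
        · simp only [List.getElem?_cons_zero, Option.some.injEq] at hj'
          subst hj'
          simp at hp
        · simp at hj'
    rw [← hX c n p hn' hp]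
    simp [inTrace_append hI.wf hib]
  have swap : ∀ {x y : Fml × Finset Nm} {Γ : List (Fml × Finset Nm)} {k : ℕ} {b : List Node}
      {κ : ℕ → Nm}, Inv' (x :: y :: Γ) k b κ → Inv' (y :: x :: Γ) k b κ := by
    intro x y Γ k b κ h
    refine ⟨h.wf, fun φ X hX => h.mem φ X ?_, h.partner, fun φ X hX => h.bound φ X ?_⟩
    · simp only [List.mem_cons] at hX ⊢
      tauto
    · simp only [List.mem_cons] at hX ⊢
      tauto
  induction h with
  | crash h₁ h₂ h => exact fun hI => .leaf (hI.crash h₁ h₂ h)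
  | conj hi _ ih =>
    intro b κ hI
    obtain ⟨i, hib, hh, hX⟩ := hI.mem _ _ hi
    exact .conj hh (ih (swap (two _ _ hI hib hX (hI.bound _ _ hi))))
  | negDisj hi _ ih =>
    intro b κ hI
    obtain ⟨i, hib, hh, hX⟩ := hI.mem _ _ hi
    exact .negDisj hh (ih (swap (two _ _ hI hib hX (hI.bound _ _ hi))))
  | negNeg hi _ ih =>
    intro b κ hI
    obtain ⟨i, hib, hh, hX⟩ := hI.mem _ _ hi
    exact .negNeg hh (ih (hI.one _ [i] _ (by simpa using hib) (by simpa using hX)
      (hI.bound _ _ hi)))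
  | negConj hi _ _ ih₁ ih₂ =>
    intro b κ hI
    obtain ⟨i, hib, hh, hX⟩ := hI.mem _ _ hi
    exact .negConj hh
      (ih₁ (hI.one _ [i] _ (by simpa using hib) (by simpa using hX) (hI.bound _ _ hi)))
      (ih₂ (hI.one _ [i] _ (by simpa using hib) (by simpa using hX) (hI.bound _ _ hi)))
  | disj hi _ _ ih₁ ih₂ =>
    intro b κ hI
    obtain ⟨i, hib, hh, hX⟩ := hI.mem _ _ hi
    exact .disj hh
      (ih₁ (hI.one _ [i] _ (by simpa using hib) (by simpa using hX) (hI.bound _ _ hi)))
      (ih₂ (hI.one _ [i] _ (by simpa using hib) (by simpa using hX) (hI.bound _ _ hi)))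
  | mp hi hj _ ih =>
    intro b κ hI
    obtain ⟨i, hib, hh, hX⟩ := hI.mem _ _ hi
    obtain ⟨j, hjb, hh', hY⟩ := hI.mem _ _ hj
    refine .mp hh hh' (ih (hI.one _ [i, j] _ (by simpa using ⟨hib, hjb⟩) ?_ ?_))
    · intro c n p hn hp
      rw [Finset.mem_union, ← hX c n p hn hp, ← hY c n p hn hp]
      simp
    · intro a ha
      rcases Finset.mem_union.mp ha with ha | ha
      · exact hI.bound _ _ hi a ha
      · exact hI.bound _ _ hj a ha
  | counter hi _ ih =>
    intro b κ hI
    obtain ⟨i, hib, hh, hX⟩ := hI.mem _ _ hi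
    exact .counter hh (ih (hI.pair _ _ i _ hib hX (hI.bound _ _ hi)))
  | recursive hi hS _ ih =>
    intro b κ hI
    obtain ⟨i, hib, hh, hX⟩ := hI.mem _ _ hi
    exact .recursive hh hS (ih (hI.one _ [i] _ (by simpa using hib) (by simpa using hX)
      (hI.bound _ _ hi)))

theorem closes_of_der {S : Set Fml} {φ : Fml} (h : Der S [(φ, ∅)] 0) :
    Closes S [⟨φ, [], none⟩] := by
  have hc : ∀ (c p : ℕ) (n : Node), [(⟨φ, [], none⟩ : Node)][c]? = some n →
      n.partner = some p → False := by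
    intro c p n hn hp
    rcases c with _ | c
    · simp only [List.getElem?_cons_zero, Option.some.injEq] at hn
      subst hn
      simp at hp
    · simp at hn
  refine closes_of_der_aux h (κ := fun _ => (0, false)) ⟨?_, ?_, ?_, ?_⟩
  · intro i n k hn hk
    rcases i with _ | i
    · simp only [List.getElem?_cons_zero, Option.some.injEq] at hn
      subst hn
      simp at hk
    · simp at hn
  · intro ψ X hX
    simp only [List.mem_singleton, Prod.mk.injEq] at hX
    obtain ⟨rfl, rfl⟩ := hX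
    exact ⟨0, by simp, ⟨_, rfl, rfl⟩, fun c n p hn hp => (hc c p n hn hp).elim⟩
  · exact fun c p n hn hp => (hc c p n hn hp).elim
  · intro ψ X hX a ha
    simp only [List.mem_singleton, Prod.mk.injEq] at hX
    obtain ⟨rfl, rfl⟩ := hX
    simp at ha

theorem closes_iff_der {S : Set Fml} {φ : Fml} :
    Closes S [⟨φ, [], none⟩] ↔ Der S [(φ, ∅)] 0 := ⟨der_of_closes, closes_of_der⟩

/-- `A` is closed: a formula with a good tree using `A` is in `A`. -/
theorem acceptable_of_der {φ : Fml} (h : Der Acceptable [(.neg φ, ∅)] 0) : φ ∈ Acceptable := by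
  intro S hS
  refine hS φ (closes_iff_der.mpr (h.mono ?_ (List.Subset.refl _)))
  intro ψ hψ
  exact hψ S hS

/-- Induction principle for acceptability. -/
theorem acceptable_induction {P : Fml → Prop}
    (h : ∀ φ, Der {ψ | ψ ∈ Acceptable ∧ P ψ} [(.neg φ, ∅)] 0 → P φ) {φ : Fml}
    (hφ : φ ∈ Acceptable) : P φ := by
  refine (hφ {ψ | ψ ∈ Acceptable ∧ P ψ} ?_).2
  intro ψ hψ
  have hψ' := closes_iff_der.mp hψ
  exact ⟨acceptable_of_der (hψ'.mono (fun _ h => h.1) (List.Subset.refl _)), h ψ hψ'⟩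

end Pool.Agent.R824.TT
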