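import Pool.Agent.R824.TT.Alg

/-!
The translation of formulas into pairs of formulas, which preserves acceptability.
-/

set_option autoImplicit false

namespace Pool.Agent.R824.TT

/-- The two components of the translation of a formula; `false` is the component which holds at
labels without the extra point, `true` the one at labels with it. -/
def T (v : ℕ → Bool → Fml) : Fml → Bool → Fml
  | .var p, j => v p j
  | .neg φ, j => .neg (T v φ (!j))
  | .conj φ ψ, j => .conj (T v φ j) (T v ψ j)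
  | .disj φ ψ, j => .disj (T v φ j) (T v ψ j)
  | .imp φ ψ, false => .conj (.imp (T v φ false) (T v ψ false)) (.imp (T v φ true) (T v ψ true))
  | .imp φ ψ, true => .imp (T v φ false) (T v ψ true)

theorem T_le {v : ℕ → Bool → Fml} (hv : ∀ p, Le (v p true) (v p false)) :
    ∀ φ, Le (T v φ true) (T v φ false)
  | .var p => hv p
  | .neg φ => contra (T_le hv φ)
  | .conj φ ψ => le_conj (conj_le_left.trans (T_le hv φ)) (conj_le_right.trans (T_le hv ψ))
  | .disj φ ψ => disj_le ((T_le hv φ).trans le_disj_left) ((T_le hv ψ).trans le_disj_right)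
  | .imp φ ψ => le_conj (imp_mono (.refl _) (T_le hv ψ)) (imp_mono (T_le hv φ) (.refl _))

/-- The critical node named `a` is one at which the extra point is lost. -/
def Drop (κ : Nm → Bool) (a : Nm) : Prop := κ a = false ∧ κ (a.1, !a.2) = true

/-- The invariant for nodes whose label does not contain the extra point. -/
def Low (κ : Nm → Bool) (X : Finset Nm) : Prop :=
  (∃ a ∈ X, Drop κ a) ∧ ∀ a ∈ X, κ a = true → ∃ a' ∈ X, a.1 < a'.1 ∧ Drop κ a'

theorem low_union {κ : Nm → Bool} {X Y : Finset Nm} (hX : Low κ X) (hY : Low κ Y) :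
    Low κ (X ∪ Y) := by
  refine ⟨?_, ?_⟩
  · obtain ⟨a, ha, h⟩ := hX.1
    exact ⟨a, Finset.mem_union_left _ ha, h⟩
  · intro a ha hκ
    rcases Finset.mem_union.mp ha with ha | ha
    · obtain ⟨a', ha', h⟩ := hX.2 a ha hκ
      exact ⟨a', Finset.mem_union_left _ ha', h⟩
    · obtain ⟨a', ha', h⟩ := hY.2 a ha hκ
      exact ⟨a', Finset.mem_union_right _ ha', h⟩

theorem not_low {κ : Nm → Bool} {X : Finset Nm} (hX : ∀ m, (m, false) ∈ X ↔ (m, true) ∈ X) :
    ¬ Low κ X := by
  classical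
  intro h
  obtain ⟨a, ha, hd⟩ := h.1
  obtain ⟨b, hb, hmax⟩ := (X.filter (Drop κ)).exists_max_image (fun a => a.1)
    ⟨a, Finset.mem_filter.mpr ⟨ha, hd⟩⟩
  rw [Finset.mem_filter] at hb
  obtain ⟨hbX, hbd⟩ := hb
  have hb' : (b.1, !b.2) ∈ X := by
    rcases b with ⟨m, s⟩
    cases s
    · exact (hX m).mp hbX
    · exact (hX m).mpr hbX
  obtain ⟨a', ha', hlt, hd'⟩ := h.2 _ hb' hbd.2
  have := hmax a' (Finset.mem_filter.mpr ⟨ha', hd'⟩)
  simp only at hlt
  omega

/-- Invariant for the simulation. -/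
structure Sim (v : ℕ → Bool → Fml) (Γ Γ' : List (Fml × Finset Nm)) (k : ℕ) (κ : Nm → Bool) :
    Prop where
  ex : ∀ (φ : Fml) (X : Finset Nm), (φ, X) ∈ Γ → ∃ j, (T v φ j, X) ∈ Γ' ∧ (j = true ∨ Low κ X)
  bound : ∀ (φ : Fml) (X : Finset Nm), (φ, X) ∈ Γ → ∀ a ∈ X, a.1 < k

theorem Sim.sub {v : ℕ → Bool → Fml} {Γ Γ' Γ'' : List (Fml × Finset Nm)} {k : ℕ}
    {κ : Nm → Bool} (h : Sim v Γ Γ' k κ) (hs : Γ' ⊆ Γ'') : Sim v Γ Γ'' k κ := by
  refine ⟨?_, h.bound⟩
  intro φ X hX
  obtain ⟨j, h1, h2⟩ := h.ex φ X hX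
  exact ⟨j, hs h1, h2⟩

theorem Sim.cons {v : ℕ → Bool → Fml} {Γ Γ' : List (Fml × Finset Nm)} {k : ℕ}
    {κ : Nm → Bool} (h : Sim v Γ Γ' k κ) {φ : Fml} {X : Finset Nm} (j : Bool)
    (h1 : (T v φ j, X) ∈ Γ') (h2 : j = true ∨ Low κ X) (h3 : ∀ a ∈ X, a.1 < k) :
    Sim v ((φ, X) :: Γ) Γ' k κ := by
  refine ⟨?_, ?_⟩
  · intro ψ Y hY
    rcases List.mem_cons.mp hY with h' | h'
    · cases h'
      exact ⟨j, h1, h2⟩
    · exact h.ex ψ Y h'
  · intro ψ Y hY
    rcases List.mem_cons.mp hY with h' | h'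
    · cases h'
      exact h3
    · exact h.bound ψ Y h'

/-- Changing `κ` at new names. -/
theorem Sim.update {v : ℕ → Bool → Fml} {Γ Γ' : List (Fml × Finset Nm)} {k : ℕ}
    {κ : Nm → Bool} (h : Sim v Γ Γ' k κ) (κ' : Nm → Bool) (hκ : ∀ a : Nm, a.1 < k → κ' a = κ a) :
    Sim v Γ Γ' (k + 1) κ' := by
  refine ⟨?_, ?_⟩
  · intro ψ Y hY
    have hb := h.bound ψ Y hY
    obtain ⟨j, h1, h2⟩ := h.ex ψ Y hY
    refine ⟨j, h1, h2.imp_right ?_⟩
    have hd : ∀ a ∈ Y, Drop κ a → Drop κ' a := by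
      intro a ha hd
      refine ⟨?_, ?_⟩
      · rw [hκ _ (hb a ha)]; exact hd.1
      · rw [hκ _ (show (a.1, !a.2).1 < k from hb a ha)]; exact hd.2
    rintro ⟨⟨a, ha, had⟩, h4⟩
    refine ⟨⟨a, ha, hd a ha had⟩, ?_⟩
    intro a ha haκ
    rw [hκ _ (hb a ha)] at haκ
    obtain ⟨a', ha', hlt, had'⟩ := h4 a ha haκ
    exact ⟨a', ha', hlt, hd a' ha' had'⟩
  · intro ψ Y hY a ha
    have := h.bound ψ Y hY a ha
    omega

theorem simulate {v : ℕ → Bool → Fml} (hv : ∀ p, Le (v p true) (v p false)) {S : Set Fml}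
    (hS : ∀ φ ∈ S, T v φ false ∈ Acceptable) {Γ : List (Fml × Finset Nm)} {k : ℕ}
    (h : Der S Γ k) : ∀ {Γ' : List (Fml × Finset Nm)} {κ : Nm → Bool}, Sim v Γ Γ' k κ →
      Der Acceptable Γ' k := by
  induction h with
  | @crash Γ k ζ X Y h₁ h₂ h =>
    intro Γ' κ hs
    obtain ⟨j, hj, hjl⟩ := hs.ex _ _ h₁
    obtain ⟨j', hj', hjl'⟩ := hs.ex _ _ h₂
    cases j
    · cases j'
      · exact absurd (low_union (hjl.resolve_left (by simp)) (hjl'.resolve_left (by simp)))
          (not_low h)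
      · exact .crash hj hj' h
    · cases j'
      · exact .crash hj hj' h
      · exact .recursive hj (T_le hv ζ) (.crash m0 (List.mem_cons_of_mem _ hj') h)
  | @conj Γ k φ ψ X hi _ ih =>
    intro Γ' κ hs
    obtain ⟨j, hj, hjl⟩ := hs.ex _ _ hi
    have hb := hs.bound _ _ hi
    have hs' : Sim v Γ ((T v φ j, X) :: (T v ψ j, X) :: Γ') k κ := hs.sub (by simp)
    exact .conj hj (ih (((hs'.cons j m1 hjl hb)).cons j m0 hjl hb))
  | @negDisj Γ k φ ψ X hi _ ih =>
    intro Γ' κ hs
    obtain ⟨j, hj, hjl⟩ := hs.ex _ _ hi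
    have hb := hs.bound _ _ hi
    have hs' : Sim v Γ ((.neg (T v φ (!j)), X) :: (.neg (T v ψ (!j)), X) :: Γ') k κ :=
      hs.sub (by simp)
    exact .negDisj hj (ih (((hs'.cons (φ := .neg ψ) j m1 hjl hb)).cons (φ := .neg φ) j m0 hjl hb))
  | @negNeg Γ k φ X hi _ ih =>
    intro Γ' κ hs
    obtain ⟨j, hj, hjl⟩ := hs.ex _ _ hi
    have hb := hs.bound _ _ hi
    have hj' : (Fml.neg (.neg (T v φ j)), X) ∈ Γ' := by
      have : T v (.neg (.neg φ)) j = .neg (.neg (T v φ j)) := by simp [T]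
      rwa [this] at hj
    have hs' : Sim v Γ ((T v φ j, X) :: Γ') k κ := hs.sub (by simp)
    exact .negNeg hj' (ih (hs'.cons j m0 hjl hb))
  | @negConj Γ k φ ψ X hi _ _ ih₁ ih₂ =>
    intro Γ' κ hs
    obtain ⟨j, hj, hjl⟩ := hs.ex _ _ hi
    have hb := hs.bound _ _ hi
    have hs₁ : Sim v Γ ((.neg (T v φ (!j)), X) :: Γ') k κ := hs.sub (by simp)
    have hs₂ : Sim v Γ ((.neg (T v ψ (!j)), X) :: Γ') k κ := hs.sub (by simp)
    exact .negConj hj (ih₁ (hs₁.cons (φ := .neg φ) j m0 hjl hb))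
      (ih₂ (hs₂.cons (φ := .neg ψ) j m0 hjl hb))
  | @disj Γ k φ ψ X hi _ _ ih₁ ih₂ =>
    intro Γ' κ hs
    obtain ⟨j, hj, hjl⟩ := hs.ex _ _ hi
    have hb := hs.bound _ _ hi
    have hs₁ : Sim v Γ ((T v φ j, X) :: Γ') k κ := hs.sub (by simp)
    have hs₂ : Sim v Γ ((T v ψ j, X) :: Γ') k κ := hs.sub (by simp)
    exact .disj hj (ih₁ (hs₁.cons j m0 hjl hb)) (ih₂ (hs₂.cons j m0 hjl hb))
  | @mp Γ k φ ψ X Y hi hj _ ih =>
    intro Γ' κ hs
    obtain ⟨i, hi', hil⟩ := hs.ex _ _ hi
    obtain ⟨j, hj', hjl⟩ := hs.ex _ _ hj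
    have hb : ∀ a ∈ X ∪ Y, a.1 < k := by
      intro a ha
      rcases Finset.mem_union.mp ha with ha | ha
      · exact hs.bound _ _ hi a ha
      · exact hs.bound _ _ hj a ha
    cases j
    · -- the implication is at a label without the point
      have hlY : Low κ Y := hjl.resolve_left (by simp)
      refine .conj hj' ?_
      have hmem : (Fml.imp (T v φ i) (T v ψ i), Y) ∈
          ((.imp (T v φ false) (T v ψ false), Y) :: (.imp (T v φ true) (T v ψ true), Y) :: Γ' :
            List (Fml × Finset Nm)) := by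
        cases i
        · exact m0
        · exact m1
      refine .mp (List.mem_cons_of_mem _ (List.mem_cons_of_mem _ hi')) hmem (ih (κ := κ) ?_)
      refine (hs.sub ?_).cons i m0 ?_ hb
      · exact fun _ h => List.mem_cons_of_mem _ (List.mem_cons_of_mem _ (List.mem_cons_of_mem _ h))
      · rcases hil with h | h
        · exact Or.inl h
        · exact Or.inr (low_union h hlY)
    · cases i
      · refine .mp hi' hj' (ih ((hs.sub ?_).cons true m0 (Or.inl rfl) hb))
        exact fun _ h => List.mem_cons_of_mem _ h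
      · refine .recursive hi' (T_le hv φ) (.mp m0 (List.mem_cons_of_mem _ hj')
          (ih ((hs.sub ?_).cons true m0 (Or.inl rfl) hb)))
        exact fun _ h => List.mem_cons_of_mem _ (List.mem_cons_of_mem _ h)
  | @counter Γ k φ ψ X hi _ ih =>
    intro Γ' κ hs
    obtain ⟨j, hj, hjl⟩ := hs.ex _ _ hi
    have hb := hs.bound _ _ hi
    have hkX : ∀ s, (k, s) ∉ X := fun s hs => lt_irrefl _ (hb _ hs)
    have hb0 : ∀ s, ∀ a ∈ insert (k, s) X, a.1 < k + 1 := by
      intro s a ha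
      rcases Finset.mem_insert.mp ha with rfl | ha
      · simp
      · have := hb a ha
        omega
    have hsub : ∀ {e e' : Fml × Finset Nm}, Γ' ⊆ e :: e' :: Γ' := by
      intro e e' x hx
      exact List.mem_cons_of_mem _ (List.mem_cons_of_mem _ hx)
    have hsub3 : ∀ {e e' e'' : Fml × Finset Nm}, Γ' ⊆ e :: e' :: e'' :: Γ' := by
      intro e e' e'' x hx
      exact List.mem_cons_of_mem _ (List.mem_cons_of_mem _ (List.mem_cons_of_mem _ hx))
    cases j
    · -- both new nodes at labels without the point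
      have hlX : Low κ X := hjl.resolve_left (by simp)
      let κ' : Nm → Bool := fun a => if a.1 = k then false else κ a
      have hκ' : ∀ a : Nm, a.1 < k → κ' a = κ a := fun a ha => if_neg ha.ne
      have hlow : ∀ s, Low κ' (insert (k, s) X) := by
        intro s
        have hd : ∀ a ∈ X, Drop κ a → Drop κ' a := by
          intro a ha hd
          refine ⟨?_, ?_⟩
          · rw [hκ' _ (hb a ha)]; exact hd.1
          · rw [hκ' _ (show (a.1, !a.2).1 < k from hb a ha)]; exact hd.2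
        obtain ⟨⟨a, ha, had⟩, h4⟩ := hlX
        refine ⟨⟨a, Finset.mem_insert_of_mem ha, hd a ha had⟩, ?_⟩
        intro a ha haκ
        rcases Finset.mem_insert.mp ha with rfl | ha
        · simp [κ'] at haκ
        · rw [hκ' _ (hb a ha)] at haκ
          obtain ⟨a', ha', hlt, had'⟩ := h4 a ha haκ
          exact ⟨a', Finset.mem_insert_of_mem ha', hlt, hd a' ha' had'⟩
      refine .counter (φ := T v φ false) (ψ := T v ψ true) hj (ih (κ := κ') ?_)
      exact (((hs.sub hsub).update κ' hκ').cons (φ := .neg ψ) false m1 (Or.inr (hlow _))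
        (hb0 _)).cons false m0 (Or.inr (hlow _)) (hb0 _)
    · have lowdrop : ∀ (κ' : Nm → Bool) (s : Bool), Drop κ' (k, s) →
          Low κ' (insert (k, s) X) := by
        intro κ' s hd
        refine ⟨⟨_, Finset.mem_insert_self _ _, hd⟩, ?_⟩
        intro a ha haκ
        rcases Finset.mem_insert.mp ha with rfl | ha
        · rw [hd.1] at haκ
          simp at haκ
        · exact ⟨_, Finset.mem_insert_self _ _, hb a ha, hd⟩
      refine .negConj (φ := .imp (T v φ false) (T v ψ false))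
        (ψ := .imp (T v φ true) (T v ψ true)) hj (.counter m0 ?_) (.counter m0 ?_)
      · let κ' : Nm → Bool := fun a => if a.1 = k then a.2 else κ a
        have hκ' : ∀ a : Nm, a.1 < k → κ' a = κ a := fun a ha => if_neg ha.ne
        refine ih ((((hs.sub hsub3).update κ' hκ').cons (φ := .neg ψ) true m1 (Or.inl rfl)
          (hb0 _)).cons false m0 (Or.inr (lowdrop κ' false ?_)) (hb0 _))
        simp [Drop, κ']
      · let κ' : Nm → Bool := fun a => if a.1 = k then !a.2 else κ a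
        have hκ' : ∀ a : Nm, a.1 < k → κ' a = κ a := fun a ha => if_neg ha.ne
        refine ih ((((hs.sub hsub3).update κ' hκ').cons (φ := .neg ψ) false m1
          (Or.inr (lowdrop κ' true ?_)) (hb0 _)).cons true m0 (Or.inl rfl) (hb0 _))
        simp [Drop, κ']
  | @recursive Γ k φ ψ X hi hS' _ ih =>
    intro Γ' κ hs
    obtain ⟨j, hj, hjl⟩ := hs.ex _ _ hi
    have hb := hs.bound _ _ hi
    have h1 : Fml.imp (T v φ j) (T v ψ j) ∈ Acceptable := by
      have h2 := hS _ hS'
      cases j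
      · exact detach h2 conj_le_left
      · exact detach h2 conj_le_right
    exact .recursive hj h1 (ih ((hs.sub (by simp)).cons j m0 hjl hb))

/-- The translation preserves acceptability. -/
theorem T_mem {v : ℕ → Bool → Fml} (hv : ∀ p, Le (v p true) (v p false)) {φ : Fml}
    (hφ : φ ∈ Acceptable) : T v φ false ∈ Acceptable := by
  refine acceptable_induction (P := fun φ => T v φ false ∈ Acceptable) ?_ hφ
  intro φ h
  refine acceptable_of_der (simulate hv (S := {ψ | ψ ∈ Acceptable ∧ T v ψ false ∈ Acceptable})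
    (fun _ h => h.2) h (κ := fun _ => false) ⟨?_, ?_⟩)
  · intro ψ X hX
    simp only [List.mem_singleton, Prod.mk.injEq] at hX
    obtain ⟨rfl, rfl⟩ := hX
    exact ⟨true, m0, Or.inl rfl⟩
  · intro ψ X hX a ha
    simp only [List.mem_singleton, Prod.mk.injEq] at hX
    obtain ⟨rfl, rfl⟩ := hX
    simp at ha

/-! ### Identity on formulas all of whose letters are translated as themselves -/

theorem T_id {v : ℕ → Bool → Fml} : ∀ (φ : Fml), (∀ p ∈ φ.letters, ∀ j, v p j = .var p) →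
    ∀ j, Le φ (T v φ j) ∧ Le (T v φ j) φ
  | .var p, h, j => by
      have := h p rfl j
      simp only [T, this]
      exact ⟨.refl _, .refl _⟩
  | .neg φ, h, j => by
      obtain ⟨h1, h2⟩ := T_id φ h (!j)
      exact ⟨contra h2, contra h1⟩
  | .conj φ ψ, h, j => by
      obtain ⟨h1, h2⟩ := T_id φ (fun p hp => h p (Or.inl hp)) j
      obtain ⟨h3, h4⟩ := T_id ψ (fun p hp => h p (Or.inr hp)) j
      exact ⟨le_conj (conj_le_left.trans h1) (conj_le_right.trans h3),
        le_conj (conj_le_left.trans h2) (conj_le_right.trans h4)⟩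
  | .disj φ ψ, h, j => by
      obtain ⟨h1, h2⟩ := T_id φ (fun p hp => h p (Or.inl hp)) j
      obtain ⟨h3, h4⟩ := T_id ψ (fun p hp => h p (Or.inr hp)) j
      exact ⟨disj_le (h1.trans le_disj_left) (h3.trans le_disj_right),
        disj_le (h2.trans le_disj_left) (h4.trans le_disj_right)⟩
  | .imp φ ψ, h, false => by
      obtain ⟨h1, h2⟩ := T_id φ (fun p hp => h p (Or.inl hp)) false
      obtain ⟨h3, h4⟩ := T_id ψ (fun p hp => h p (Or.inr hp)) false
      obtain ⟨h5, h6⟩ := T_id φ (fun p hp => h p (Or.inl hp)) true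
      obtain ⟨h7, h8⟩ := T_id ψ (fun p hp => h p (Or.inr hp)) true
      exact ⟨le_conj (imp_mono h2 h3) (imp_mono h6 h7), conj_le_left.trans (imp_mono h1 h4)⟩
  | .imp φ ψ, h, true => by
      obtain ⟨h1, h2⟩ := T_id φ (fun p hp => h p (Or.inl hp)) false
      obtain ⟨h7, h8⟩ := T_id ψ (fun p hp => h p (Or.inr hp)) true
      exact ⟨imp_mono h2 h7, imp_mono h1 h8⟩

/-! ### An idempotent upper bound -/

/-- `t ≤ (θ → θ)`. -/
def Fix (t θ : Fml) : Prop := Le t (.imp θ θ)

theorem Fix.neg {t θ : Fml} (h : Fix t θ) : Fix t (.neg θ) := Le.trans h contraLaw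

theorem Fix.imp {t θ θ' : Fml} (h : Fix t θ') : Fix t (.imp θ θ') := Le.trans h le_imp_imp

theorem Fix.disj {t θ θ' : Fml} (h : Fix t θ) (h' : Fix t θ') : Fix t (.disj θ θ') :=
  Le.trans (le_conj h h') disj_imp_disj

variable {φ ψ φ' ψ' a b c x y z : Fml}

theorem fus_mono (h : Le φ φ') (h' : Le ψ ψ') : Le (fus φ ψ) (fus φ' ψ') :=
  contra (imp_mono h (contra h'))

theorem fus_assoc' : Le (fus a (fus b c)) (fus (fus a b) c) :=
  fus_comm.trans <| (fus_mono fus_comm (.refl _)).trans <| fus_assoc.trans <|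
    fus_comm.trans <| (fus_mono fus_comm (.refl _))

/-- The element `c = (α ∨ ¬α) ∨ ¬(α → α)`. -/
def cc (α : Fml) : Fml := .disj (.disj α (.neg α)) (.neg (.imp α α))

/-- The element `k = c ∘ c`. -/
def kk (α : Fml) : Fml := fus (cc α) (cc α)

theorem le_cc (α : Fml) : Le α (cc α) := le_disj_left.trans le_disj_left

theorem neg_le_cc (α : Fml) : Le (.neg α) (cc α) := le_disj_right.trans le_disj_left

theorem cc_le_kk (α : Fml) : Le (cc α) (kk α) := le_fus_self

theorem le_kk (α : Fml) : Le α (kk α) := (le_cc α).trans (cc_le_kk α)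

theorem kk_mem (α : Fml) : kk α ∈ Acceptable :=
  detach (detach excluded_middle le_disj_left) (cc_le_kk α)

theorem neg_kk_le (α : Fml) : Le (.neg (kk α)) (kk α) :=
  (contra (le_kk α)).trans ((neg_le_cc α).trans (cc_le_kk α))

theorem fix_cc (α : Fml) : Fix (.imp α α) (cc α) := by
  have h : Fix (.imp α α) α := .refl _
  exact (h.disj h.neg).disj h.imp.neg

theorem fix_neg_kk (α : Fml) : Fix (.imp α α) (.neg (kk α)) := (fix_cc α).neg.imp.neg.neg

theorem kk_idem (α : Fml) : Le (fus (kk α) (kk α)) (kk α) := by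
  set c := cc α with hc
  set t : Fml := .imp α α with ht
  set m : Fml := .neg (kk α) with hm
  have h1 : Le (fus c m) (.neg c) := antilog (z := kk α) (.refl _)
  have h2 : Le (.neg c) t := (contra le_disj_right).trans dneg_le
  have h3 : Le (fus t m) m := fus_le (fix_neg_kk α)
  have h4 : Le (fus c m) m := by
    have e1 : Le (fus c m) (fus c (fus m m)) := fus_mono (.refl _) le_fus_self
    have e2 : Le (fus c (fus m m)) (fus (fus c m) m) := fus_assoc'
    have e3 : Le (fus (fus c m) m) (fus t m) := fus_mono (h1.trans h2) (.refl _)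
    exact ((e1.trans e2).trans e3).trans h3
  have h5 : Le (fus c (kk α)) (kk α) := by
    have e1 : Le (fus c (.neg m)) (.neg m) := antilog h4
    have e2 : Le (kk α) (.neg m) := le_dneg
    have e3 : Le (.neg m) (kk α) := dneg_le
    exact ((fus_mono (.refl _) e2).trans e1).trans e3
  have e1 : Le (fus (kk α) (kk α)) (fus c (fus c (kk α))) := fus_assoc
  exact (e1.trans (fus_mono (.refl _) h5)).trans h5

/-- All formulas in letters translated as `(k, ¬k)` are translated as `(k, ¬k)`. -/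
theorem T_kk {v : ℕ → Bool → Fml} {k : Fml} (hk : k ∈ Acceptable) (hkk : Le (fus k k) k) :
    ∀ (φ : Fml), (∀ p ∈ φ.letters, v p false = k ∧ v p true = .neg k) →
      (Le k (T v φ false) ∧ Le (T v φ false) k) ∧
        (Le (.neg k) (T v φ true) ∧ Le (T v φ true) (.neg k))
  | .var p, h => by
      obtain ⟨h1, h2⟩ := h p rfl
      simp only [T, h1, h2]
      exact ⟨⟨.refl _, .refl _⟩, .refl _, .refl _⟩
  | .neg φ, h => by
      obtain ⟨⟨h1, h2⟩, h3, h4⟩ := T_kk hk hkk φ h
      exact ⟨⟨le_dneg.trans (contra h4), (contra h3).trans dneg_le⟩, contra h2, contra h1⟩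
  | .conj φ ψ, h => by
      obtain ⟨⟨h1, h2⟩, h3, h4⟩ := T_kk hk hkk φ (fun p hp => h p (Or.inl hp))
      obtain ⟨⟨h5, h6⟩, h7, h8⟩ := T_kk hk hkk ψ (fun p hp => h p (Or.inr hp))
      exact ⟨⟨le_conj h1 h5, conj_le_left.trans h2⟩, le_conj h3 h7, conj_le_left.trans h4⟩
  | .disj φ ψ, h => by
      obtain ⟨⟨h1, h2⟩, h3, h4⟩ := T_kk hk hkk φ (fun p hp => h p (Or.inl hp))
      obtain ⟨⟨h5, h6⟩, h7, h8⟩ := T_kk hk hkk ψ (fun p hp => h p (Or.inr hp))
      exact ⟨⟨h1.trans le_disj_left, disj_le h2 h6⟩, h3.trans le_disj_left, disj_le h4 h8⟩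
  | .imp φ ψ, h => by
      obtain ⟨⟨h1, h2⟩, h3, h4⟩ := T_kk hk hkk φ (fun p hp => h p (Or.inl hp))
      obtain ⟨⟨h5, h6⟩, h7, h8⟩ := T_kk hk hkk ψ (fun p hp => h p (Or.inr hp))
      have a1 : Le k (.imp k k) := le_imp hkk
      have a2 : Le (.imp k k) k := detach hk assertion
      refine ⟨⟨le_conj (a1.trans (imp_mono h2 h5)) ((a1.trans contraLaw).trans (imp_mono h4 h7)),
        conj_le_left.trans ((imp_mono h1 h6).trans a2)⟩, ?_, ?_⟩
      · -- `¬k ≤ k → ¬k`
        have b1 : Le (.neg k) (.imp k (.neg k)) := (contra hkk).trans dneg_le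
        exact b1.trans (imp_mono h2 h7)
      · have b1 : Le (.imp k (.neg k)) (.neg k) := le_dneg.trans (contra le_fus_self)
        exact (imp_mono h1 h8).trans b1

end Pool.Agent.R824.TT
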